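import Pool.Agent.ATB.Stmts

set_option autoImplicit false

/-! Row LPW of squad ATB: exterior powers of a subspace. -/

namespace Pool.Agent.ATB.H85

open Pool.Agent.ATB

section
variable {K : Type} [Field K] {n : ℕ}

theorem pow_mono_nat (U U' : Submodule K (Fin n → K)) (h : U ≤ U') (m : ℕ) :
    (U.map (ExteriorAlgebra.ι K)) ^ m ≤ (U'.map (ExteriorAlgebra.ι K)) ^ m := by
  induction m with
  | zero => simp
  | succ m ih =>
    rw [pow_succ, pow_succ]
    exact mul_le_mul' ih (Submodule.map_mono h)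

theorem lp_mono (U U' : Submodule K (Fin n → K)) (i : ℤ) (h : U ≤ U') : Lpow U i ≤ Lpow U' i := by
  rcases lt_or_ge i 0 with hi | hi
  · rw [Lpow_neg U hi]
    exact bot_le
  · obtain ⟨m, rfl⟩ := Int.eq_ofNat_of_zero_le hi
    rw [Lpow_natCast, Lpow_natCast]
    exact pow_mono_nat U U' h m

theorem lp_mul (U : Submodule K (Fin n → K)) (i : ℤ) (a : Fin n → K)
    (ω : ExteriorAlgebra K (Fin n → K)) (ha : a ∈ U) (hω : ω ∈ Lpow U i) :
    ExteriorAlgebra.ι K a * ω ∈ Lpow U (i + 1) := by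
  rcases lt_or_ge i 0 with hi | hi
  · rw [Lpow_neg U hi, Submodule.mem_bot] at hω
    rw [hω, mul_zero]
    exact Submodule.zero_mem _
  · obtain ⟨m, rfl⟩ := Int.eq_ofNat_of_zero_le hi
    rw [Lpow_natCast] at hω
    have h1 : ((m : ℤ) + 1) = ((m + 1 : ℕ) : ℤ) := by push_cast; ring
    rw [h1, Lpow_natCast, pow_succ']
    exact Submodule.mul_mem_mul (Submodule.mem_map_of_mem ha) hω

theorem lp_dec_nat (U : Submodule K (Fin n → K)) (c : Fin n → K) (m : ℕ) :
    ∀ ω : ExteriorAlgebra K (Fin n → K), ω ∈ Lpow (U ⊔ Submodule.span K {c}) (m : ℤ) →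
      ∃ ω₀ ∈ Lpow U (m : ℤ), ∃ ω₁ ∈ Lpow U ((m : ℤ) - 1), ω = ω₀ + ExteriorAlgebra.ι K c * ω₁ := by
  induction m with
  | zero =>
    intro ω hω
    refine ⟨ω, ?_, 0, Submodule.zero_mem _, ?_⟩
    · rw [Lpow_natCast, pow_zero] at hω ⊢
      exact hω
    · rw [mul_zero, add_zero]
  | succ m ih =>
    intro ω hω
    rw [Lpow_natCast, pow_succ'] at hω
    have hm1 : (((m + 1 : ℕ) : ℤ) - 1) = (m : ℤ) := by push_cast; ring
    have hm2 : ((m + 1 : ℕ) : ℤ) = (m : ℤ) + 1 := by push_cast; ring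
    rw [hm1, hm2]
    refine Submodule.mul_induction_on hω ?_ ?_
    · intro x hx y hy
      obtain ⟨v, hv, rfl⟩ := Submodule.mem_map.1 hx
      obtain ⟨u, hu, w, hw, rfl⟩ := Submodule.mem_sup.1 hv
      obtain ⟨a, rfl⟩ := Submodule.mem_span_singleton.1 hw
      have hy' : y ∈ Lpow (U ⊔ Submodule.span K {c}) (m : ℤ) := by
        rw [Lpow_natCast]
        exact hy
      obtain ⟨ω₀, h0, ω₁, h1, rfl⟩ := ih y hy'
      refine ⟨ExteriorAlgebra.ι K u * ω₀, lp_mul U m u ω₀ hu h0,
        a • ω₀ - ExteriorAlgebra.ι K u * ω₁, ?_, ?_⟩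
      · refine Submodule.sub_mem _ (Submodule.smul_mem _ _ h0) ?_
        have h2 := lp_mul U ((m : ℤ) - 1) u ω₁ hu h1
        rw [sub_add_cancel] at h2
        exact h2
      · have e1 : ExteriorAlgebra.ι K c * (ExteriorAlgebra.ι K c * ω₁) = 0 := by
          rw [← mul_assoc, ExteriorAlgebra.ι_sq_zero, zero_mul]
        have e2 : ExteriorAlgebra.ι K u * (ExteriorAlgebra.ι K c * ω₁)
            = - (ExteriorAlgebra.ι K c * (ExteriorAlgebra.ι K u * ω₁)) := by
          rw [← mul_assoc, ← mul_assoc, ← neg_mul]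
          congr 1
          exact eq_neg_of_add_eq_zero_left (ExteriorAlgebra.ι_add_mul_swap u c)
        rw [map_add, map_smul, add_mul, mul_add, mul_add, e2, mul_sub, mul_smul_comm,
          smul_mul_assoc, smul_mul_assoc, e1, smul_zero, add_zero]
        abel
    · intro x y hx hy
      obtain ⟨ω₀, h0, ω₁, h1, rfl⟩ := hx
      obtain ⟨η₀, k0, η₁, k1, rfl⟩ := hy
      refine ⟨ω₀ + η₀, Submodule.add_mem _ h0 k0, ω₁ + η₁, Submodule.add_mem _ h1 k1, ?_⟩
      rw [mul_add]
      abel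

theorem lp_dec (U : Submodule K (Fin n → K)) (c : Fin n → K) (i : ℤ)
    (ω : ExteriorAlgebra K (Fin n → K)) (hω : ω ∈ Lpow (U ⊔ Submodule.span K {c}) i) :
      ∃ ω₀ ∈ Lpow U i, ∃ ω₁ ∈ Lpow U (i - 1), ω = ω₀ + ExteriorAlgebra.ι K c * ω₁ := by
  rcases lt_or_ge i 0 with hi | hi
  · rw [Lpow_neg _ hi, Submodule.mem_bot] at hω
    exact ⟨0, Submodule.zero_mem _, 0, Submodule.zero_mem _, by rw [hω, mul_zero, add_zero]⟩
  · obtain ⟨m, rfl⟩ := Int.eq_ofNat_of_zero_le hi
    exact lp_dec_nat U c m ω hω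

theorem lp_sp_bot (B : Multiset (Fin n → K)) :
    ∀ i : ℤ, (B.card : ℤ) < i → Lpow (sp B) i = ⊥ := by
  induction B using Multiset.induction_on with
  | empty =>
    intro i hi
    rw [Multiset.card_zero] at hi
    have hs : sp (0 : Multiset (Fin n → K)) = ⊥ := by
      rw [eq_bot_iff, sp_le]
      intro z hz
      exact absurd hz (Multiset.notMem_zero z)
    obtain ⟨m, rfl⟩ := Int.eq_ofNat_of_zero_le (le_of_lt hi)
    rw [Lpow_natCast, hs, Submodule.map_bot]
    have hm : m ≠ 0 := by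
      rintro rfl
      exact absurd hi (lt_irrefl _)
    obtain ⟨k, rfl⟩ := Nat.exists_eq_succ_of_ne_zero hm
    rw [Nat.succ_eq_add_one, pow_succ, Submodule.mul_bot]
  | cons a B ih =>
    intro i hi
    rw [Multiset.card_cons] at hi
    push_cast at hi
    rw [sp_cons, eq_bot_iff]
    intro ω hω
    obtain ⟨ω₀, h0, ω₁, h1, rfl⟩ := lp_dec (sp B) a i ω hω
    rw [ih i (by omega), Submodule.mem_bot] at h0
    rw [ih (i - 1) (by omega), Submodule.mem_bot] at h1
    rw [h0, h1, mul_zero, add_zero]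
    exact Submodule.zero_mem _

theorem lp_bot (U : Submodule K (Fin n → K)) (i : ℤ) (h : (Module.finrank K U : ℤ) < i) :
    Lpow U i = ⊥ := by
  set b := Module.finBasis K U with hb
  have hU : U = sp ((Finset.univ : Finset (Fin (Module.finrank K U))).val.map
      (fun j => ((b j : U) : Fin n → K))) := by
    apply le_antisymm
    · intro u hu
      have h1 := b.sum_repr ⟨u, hu⟩
      have h2 := congrArg (fun x : U => (x : Fin n → K)) h1
      simp only [Submodule.coe_sum, Submodule.coe_smul] at h2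
      rw [← h2]
      refine Submodule.sum_mem _ (fun j _ => Submodule.smul_mem _ _ (mem_sp ?_))
      rw [Multiset.mem_map]
      exact ⟨j, Finset.mem_univ j, rfl⟩
    · rw [sp_le]
      intro z hz
      rw [Multiset.mem_map] at hz
      obtain ⟨j, _, rfl⟩ := hz
      exact (b j).2
  have hc : (((Finset.univ : Finset (Fin (Module.finrank K U))).val.map
      (fun j => ((b j : U) : Fin n → K))).card : ℤ) < i := by
    rw [Multiset.card_map]
    have : (Finset.univ : Finset (Fin (Module.finrank K U))).val.card = Module.finrank K U := by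
      simp
    rw [this]
    exact h
  have h3 := lp_sp_bot _ i hc
  rw [← hU] at h3
  exact h3

end

/-- Row LPW. -/
theorem lpw : LPWStmt := by
  intro K _ n
  exact ⟨fun U U' i h => lp_mono U U' i h, fun U i a ω ha hω => lp_mul U i a ω ha hω,
    fun U c i ω hω => lp_dec U c i ω hω, fun U i h => lp_bot U i h⟩

end Pool.Agent.ATB.H85
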